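import Mathlib
import Pool.Agent.Helper29.SI.LevB
import Pool.Agent.Helper15.SI.P7
import Pool.Agent.Helper21.SI.P2
import Pool.Agent.Helper29.SI.P1a
import Pool.Agent.Helper29.SI.P1b

/-! Decimal palindromes with prescribed first digits have level of distribution five fourteenths. -/

namespace Pool.Agent.Results.MP_540de1_nt.LevelFiveFourteenths

open Finset Filter Topology Pool.Agent.Helper10 Pool.Agent.Helper10.SQ Pool.Agent.Helper10.P4 Pool.Agent.Helper15.SI

/-- `N` is a decimal palindrome with exactly `l` digits. -/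
def IsPal (l N : ℕ) : Prop :=
  (Nat.digits 10 N).length = l ∧ (Nat.digits 10 N).reverse = Nat.digits 10 N

lemma ncard_eq (n k w M r : ℕ) :
    {N : ℕ | IsPal (2 * n + 1) N ∧ N / 10 ^ (2 * n + 1 - k) = w ∧ N ≡ r [MOD M]}.ncard =
      ((PW n k w).filter (fun N => N ≡ r [MOD M])).card := by
  have h : {N : ℕ | IsPal (2 * n + 1) N ∧ N / 10 ^ (2 * n + 1 - k) = w ∧ N ≡ r [MOD M]} =
      (((PW n k w).filter (fun N => N ≡ r [MOD M]) : Finset ℕ) : Set ℕ) := by
    ext N
    unfold PW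
    rw [Finset.coe_filter, Set.mem_ofPred_eq, Set.mem_ofPred_eq, Finset.mem_filter, mem_Pal, and_assoc]
    exact Iff.rfl
  rw [h, Set.ncard_coe_finset]

lemma ncard_eq' (n k w : ℕ) :
    {N : ℕ | IsPal (2 * n + 1) N ∧ N / 10 ^ (2 * n + 1 - k) = w}.ncard = (PW n k w).card := by
  have h : {N : ℕ | IsPal (2 * n + 1) N ∧ N / 10 ^ (2 * n + 1 - k) = w} =
      ((PW n k w : Finset ℕ) : Set ℕ) := by
    ext N
    unfold PW
    rw [Finset.coe_filter, Set.mem_ofPred_eq, Set.mem_ofPred_eq, mem_Pal]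
    exact Iff.rfl
  rw [h, Set.ncard_coe_finset]

lemma pal_lower {n N : ℕ} (h : N ∈ Pal n) : 10 ^ (2 * n) ≤ N ∧ N < 10 ^ (2 * n + 1) := by
  rw [mem_Pal, isPalD_iff _ _ (by omega)] at h
  exact ⟨by simpa using h.2, h.1.1⟩

/-- no prescribed digits -/
lemma PW_zero (n : ℕ) : PW n 0 0 = Pal n := by
  unfold PW
  rw [Finset.filter_eq_self]
  intro N hN
  rw [Nat.sub_zero]
  exact Nat.div_eq_of_lt (pal_lower hN).2

/-- only numbers with exactly `k` digits occur as first `k` digits -/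
lemma PW_empty (n k w : ℕ) (hkn : k ≤ n) (hw : ¬ (10 ^ (k - 1) ≤ w ∧ w < 10 ^ k)) (hk : 1 ≤ k) :
    PW n k w = ∅ := by
  unfold PW
  rw [Finset.filter_eq_empty_iff]
  intro N hN h
  apply hw
  obtain ⟨h1, h2⟩ := pal_lower hN
  constructor
  · rw [← h, Nat.le_div_iff_mul_le (by positivity), ← pow_add,
      show k - 1 + (2 * n + 1 - k) = 2 * n by omega]
    exact h1
  · rw [← h, Nat.div_lt_iff_lt_mul (by positivity), ← pow_add,
      show k + (2 * n + 1 - k) = 2 * n + 1 by omega]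
    exact h2

lemma PW_empty0 (n w : ℕ) (hw : w ≠ 0) : PW n 0 w = ∅ := by
  unfold PW
  rw [Finset.filter_eq_empty_iff]
  intro N hN h
  apply hw
  rw [← h, Nat.sub_zero]
  exact Nat.div_eq_of_lt (pal_lower hN).2

lemma card_PW (n k w : ℕ) (hk : 1 ≤ k) (hkn : k ≤ n) (hw1 : 10 ^ (k - 1) ≤ w) (hw : w < 10 ^ k) :
    (PW n k w).card = 10 ^ (n - k + 1) := by
  classical
  obtain ⟨b, hb⟩ := pw_count (fun l N hl => isPalD_iff l N hl) (fun l k w hw => sy_prefix l k w hw)
    n k w hk hkn hw1 hw 1 0 (by norm_num)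
  have h1 : ((PW n k w).filter (fun N => N ≡ 0 [MOD 1])) = PW n k w := by
    rw [Finset.filter_eq_self]
    intro N _
    exact Nat.modEq_one
  have h2 : sc (n - k) 1 b = (SS (2 * (n - k) + 1)).card := by
    unfold sc
    congr 1
    rw [Finset.filter_eq_self]
    intro N _
    exact Nat.modEq_one
  rw [h1, h2, card_SS_of (fun l c N hc => sy_step l c N hc)] at hb
  exact hb

/-- **Level of distribution `5/14` for decimal palindromes with prescribed first digits**, with the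
error term `10 ^ (n - k) * exp (- c √(n - k))`. The palindromes with `2 * n + 1` digits whose first `k`
digits are `w` (for `k = 0`, `w = 0`: all `9 * 10 ^ n` of them; for `k ≥ 1`: `10 ^ (n + 1 - k)` of
them, if `w` has `k` digits) are equidistributed in residue classes modulo the `q ≤ 10 ^ (5 (n - k) / 7)`
coprime to `10`, on average over `q`, with an arbitrary residue class for each modulus and an arbitrary
power of the number of divisors as weight. The constants `c` and `n0` depend only on this power. -/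
theorem result (B : ℕ) : ∃ c : ℝ, 0 < c ∧ ∃ n0 : ℕ, ∀ n k : ℕ, n0 + k ≤ n → ∀ w Q : ℕ,
    (Q : ℝ) ≤ (10 : ℝ) ^ ((5 / 7 : ℝ) * ((n : ℝ) - k)) → ∀ a : ℕ → ℕ,
    ∑ q ∈ (Icc 1 Q).filter (fun q => q.Coprime 10), (q.divisors.card : ℝ) ^ B *
      |({N : ℕ | IsPal (2 * n + 1) N ∧ N / 10 ^ (2 * n + 1 - k) = w ∧ N ≡ a q [MOD q]}.ncard : ℝ) -
        ({N : ℕ | IsPal (2 * n + 1) N ∧ N / 10 ^ (2 * n + 1 - k) = w}.ncard : ℝ) / q| ≤
          (10 : ℝ) ^ (n - k) * Real.exp (-(c * √((n : ℝ) - k))) := by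
  classical
  obtain ⟨c1, hc1, n1, h1⟩ := Pool.Agent.Helper36.PX.levelE B
  obtain ⟨c2, hc2, n2, h2⟩ := levelB_S B
  refine ⟨min c1 c2, lt_min hc1 hc2, n1 + n2 + 1, fun n k hnk w Q hQ a => ?_⟩
  have hkn : k ≤ n := by omega
  have hcast : (n : ℝ) - k = ((n - k : ℕ) : ℝ) := by rw [Nat.cast_sub hkn]
  rw [hcast] at hQ ⊢
  have hexp : ∀ c' : ℝ, min c1 c2 ≤ c' → (10 : ℝ) ^ (n - k) * Real.exp (-(c' * √((n - k : ℕ) : ℝ))) ≤
      (10 : ℝ) ^ (n - k) * Real.exp (-(min c1 c2 * √((n - k : ℕ) : ℝ))) := by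
    intro c' hc'
    apply mul_le_mul_of_nonneg_left _ (by positivity)
    apply Real.exp_le_exp.2
    have := mul_le_mul_of_nonneg_right hc' (Real.sqrt_nonneg ((n - k : ℕ) : ℝ))
    linarith
  -- no palindrome begins with `w`
  have hempty : PW n k w = ∅ →
      ∑ q ∈ (Icc 1 Q).filter (fun q => q.Coprime 10), (q.divisors.card : ℝ) ^ B *
      |({N : ℕ | IsPal (2 * n + 1) N ∧ N / 10 ^ (2 * n + 1 - k) = w ∧ N ≡ a q [MOD q]}.ncard : ℝ) -
        ({N : ℕ | IsPal (2 * n + 1) N ∧ N / 10 ^ (2 * n + 1 - k) = w}.ncard : ℝ) / q| ≤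
          (10 : ℝ) ^ (n - k) * Real.exp (-(min c1 c2 * √((n - k : ℕ) : ℝ))) := by
    intro h
    have h0 : ∑ q ∈ (Icc 1 Q).filter (fun q => q.Coprime 10), (q.divisors.card : ℝ) ^ B *
      |({N : ℕ | IsPal (2 * n + 1) N ∧ N / 10 ^ (2 * n + 1 - k) = w ∧ N ≡ a q [MOD q]}.ncard : ℝ) -
        ({N : ℕ | IsPal (2 * n + 1) N ∧ N / 10 ^ (2 * n + 1 - k) = w}.ncard : ℝ) / q| = 0 := by
      apply Finset.sum_eq_zero
      intro q _
      rw [ncard_eq, ncard_eq', h]
      simp
    rw [h0]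
    positivity
  rcases Nat.eq_zero_or_pos k with hk0 | hk
  · subst hk0
    rcases Nat.eq_zero_or_pos w with hw0 | hw0
    · subst hw0
      refine le_trans (le_of_eq ?_) (le_trans (h1 n (by omega) Q (by simpa using hQ) a) ?_)
      · apply Finset.sum_congr rfl
        intro q _
        rw [ncard_eq, ncard_eq', PW_zero, card_Pal n (by omega)]
        rfl
      · simpa using hexp c1 (min_le_left _ _)
    · exact hempty (PW_empty0 n w (by omega))
  · by_cases hw : 10 ^ (k - 1) ≤ w ∧ w < 10 ^ k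
    · obtain ⟨hwa, hwb⟩ := hw
      have hb : ∀ q : ℕ, ∃ b : ℕ, q.Coprime 10 →
          ((PW n k w).filter (fun N => N ≡ a q [MOD q])).card = sc (n - k) q b := by
        intro q
        by_cases hq : q.Coprime 10
        · obtain ⟨b, hb⟩ := pw_count (fun l N hl => isPalD_iff l N hl)
            (fun l k w hw => sy_prefix l k w hw) n k w hk hkn hwa hwb q (a q) hq
          exact ⟨b, fun _ => hb⟩
        · exact ⟨0, fun h => absurd h hq⟩
      choose b hb using hb
      refine le_trans (le_of_eq ?_) (le_trans (h2 (n - k) (by omega) Q hQ b) (hexp c2 (min_le_right _ _)))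
      apply Finset.sum_congr rfl
      intro q hq
      rw [ncard_eq, ncard_eq', hb q (Finset.mem_filter.1 hq).2, card_PW n k w hk hkn hwa hwb]
      push_cast
      rfl
    · exact hempty (PW_empty n k w hkn hw hk)

end Pool.Agent.Results.MP_540de1_nt.LevelFiveFourteenths
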