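import Mathlib
import Pool.Agent.Helper15.SI.Q9

/-! Squarefree decimal palindromes with prescribed first digits and in residue classes, with an
error term. -/

namespace Pool.Agent.Results.MP_540de1_nt.SquarefreeCount

open Finset Pool.Agent.Helper10.SQ Pool.Agent.Helper10.P4

/-- `N` is a decimal palindrome with exactly `l` digits. -/
def IsPal (l N : ℕ) : Prop :=
  (Nat.digits 10 N).length = l ∧ (Nat.digits 10 N).reverse = Nat.digits 10 N

open Classical in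
lemma ncard_eq (n : ℕ) (P : ℕ → Prop) :
    {N : ℕ | IsPal (2 * n + 1) N ∧ P N}.ncard = ((Pal n).filter P).card := by
  have h : {N : ℕ | IsPal (2 * n + 1) N ∧ P N} = (((Pal n).filter P : Finset ℕ) : Set ℕ) := by
    ext N
    rw [Finset.coe_filter, Set.mem_ofPred_eq, Set.mem_ofPred_eq, mem_Pal]
    exact Iff.rfl
  rw [h, Set.ncard_coe_finset]

/-- **Squarefree decimal palindromes.** Among the palindromes with `2 * n + 1` digits which begin
with the `k` digits `w` (`0 ≤ k ≤ (1 / 3 - ε) n`) and are not divisible by `4` or `25` (let `G` be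
their number) those which are squarefree and congruent to `a` modulo `q` number
`25 / (3 * π ^ 2) * G / q * ∏ p ∣ q, (1 - 1 / p ^ 2)⁻¹`, with an error at most
`10 ^ (n - k) / q * exp (- c √n)`, uniformly for `q ≤ exp (c √n)` coprime to `10` and `a` coprime
to `q`. -/
theorem result (ε : ℝ) (hε : 0 < ε) : ∃ c : ℝ, 0 < c ∧ ∃ n0 : ℕ, ∀ n : ℕ, n0 ≤ n →
    ∀ k : ℕ, (k : ℝ) ≤ (1 / 3 - ε) * n → ∀ w q a : ℕ,
    (q : ℝ) ≤ Real.exp (c * √(n : ℝ)) → q.Coprime 10 → a.Coprime q →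
    |({N : ℕ | IsPal (2 * n + 1) N ∧ N / 10 ^ (2 * n + 1 - k) = w ∧ Squarefree N ∧
        N ≡ a [MOD q]}.ncard : ℝ) -
      25 / (3 * Real.pi ^ 2) *
        (({N : ℕ | IsPal (2 * n + 1) N ∧ N / 10 ^ (2 * n + 1 - k) = w ∧ ¬ 4 ∣ N ∧
          ¬ 25 ∣ N}.ncard : ℝ) / q) * ∏ p ∈ q.primeFactors, (1 - 1 / (p : ℝ) ^ 2)⁻¹| ≤
      10 ^ (n - k) / q * Real.exp (-(c * √(n : ℝ))) := by
  classical
  obtain ⟨c, hc, n0, h⟩ := Pool.Agent.Helper15.SI.unified ε hε
  refine ⟨c, hc, n0, fun n hn k hkε w q a hq h10 ha => ?_⟩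
  have h1 := h n hn k hkε w q a hq h10 ha
  have h2 : {N : ℕ | IsPal (2 * n + 1) N ∧ N / 10 ^ (2 * n + 1 - k) = w ∧ Squarefree N ∧
        N ≡ a [MOD q]}.ncard =
      ((Pool.Agent.Helper15.SI.PW n k w).filter (fun N => N ≡ a [MOD q] ∧ Squarefree N)).card := by
    rw [ncard_eq n (fun N => N / 10 ^ (2 * n + 1 - k) = w ∧ Squarefree N ∧ N ≡ a [MOD q])]
    congr 1
    unfold Pool.Agent.Helper15.SI.PW
    ext N
    simp only [Finset.mem_filter]
    tauto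
  have h3 : {N : ℕ | IsPal (2 * n + 1) N ∧ N / 10 ^ (2 * n + 1 - k) = w ∧ ¬ 4 ∣ N ∧
        ¬ 25 ∣ N}.ncard =
      ((Pool.Agent.Helper15.SI.PW n k w).filter (fun N => ¬ 4 ∣ N ∧ ¬ 25 ∣ N)).card := by
    rw [ncard_eq n (fun N => N / 10 ^ (2 * n + 1 - k) = w ∧ ¬ 4 ∣ N ∧ ¬ 25 ∣ N)]
    congr 1
    unfold Pool.Agent.Helper15.SI.PW
    ext N
    simp only [Finset.mem_filter]
    tauto
  rw [h2, h3]
  exact h1

end Pool.Agent.Results.MP_540de1_nt.SquarefreeCount
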