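import Mathlib
import Pool.Agent.Helper78.TR.G
import Pool.Agent.Helper94.TW.B
import Pool.Agent.Helper78.TW.G

/-! The right order of magnitude of squarefree decimal palindromes with at most three prime factors, all
of them large, in every reduced residue class and with prescribed first digits. -/

namespace Pool.Agent.Results.MP_540de1_nt.SquarefreeThree

open Finset Pool.Agent.Helper10 Pool.Agent.Helper10.SQ Pool.Agent.Helper10.P4 Pool.Agent.Helper15.SI
  Pool.Agent.Helper10.TW

/-- `N` is a decimal palindrome with exactly `l` digits. -/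
def IsPal (l N : ℕ) : Prop :=
  (Nat.digits 10 N).length = l ∧ (Nat.digits 10 N).reverse = Nat.digits 10 N

lemma ncard_eq (n k w : ℕ) (P : ℕ → Prop) [DecidablePred P] :
    {N : ℕ | IsPal (2 * n + 1) N ∧ N / 10 ^ (2 * n + 1 - k) = w ∧ P N}.ncard =
      ((PW n k w).filter P).card := by
  have h : {N : ℕ | IsPal (2 * n + 1) N ∧ N / 10 ^ (2 * n + 1 - k) = w ∧ P N} =
      (((PW n k w).filter P : Finset ℕ) : Set ℕ) := by
    ext N
    unfold PW
    rw [Finset.coe_filter, Set.mem_ofPred_eq, Set.mem_ofPred_eq, Finset.mem_filter, mem_Pal, and_assoc]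
    exact Iff.rfl
  rw [h, Set.ncard_coe_finset]

lemma pal_lower {n N : ℕ} (h : N ∈ Pal n) : 10 ^ (2 * n) ≤ N ∧ N < 10 ^ (2 * n + 1) := by
  rw [mem_Pal, isPalD_iff _ _ (by omega)] at h
  exact ⟨by simpa using h.2, h.1.1⟩

/-- no prescribed digits -/
lemma PW_zero (n : ℕ) : PW n 0 0 = Pal n := by
  unfold PW
  rw [Finset.filter_eq_self]
  intro N hN
  rw [Nat.sub_zero]
  exact Nat.div_eq_of_lt (pal_lower hN).2

/-- only numbers with exactly `k` digits occur as first `k` digits -/
lemma PW_empty (n k w : ℕ) (hkn : k ≤ n) (hw : ¬ (10 ^ (k - 1) ≤ w ∧ w < 10 ^ k)) (hk : 1 ≤ k) :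
    PW n k w = ∅ := by
  unfold PW
  rw [Finset.filter_eq_empty_iff]
  intro N hN h
  apply hw
  obtain ⟨h1, h2⟩ := pal_lower hN
  constructor
  · rw [← h, Nat.le_div_iff_mul_le (by positivity), ← pow_add,
      show k - 1 + (2 * n + 1 - k) = 2 * n by omega]
    exact h1
  · rw [← h, Nat.div_lt_iff_lt_mul (by positivity), ← pow_add,
      show k + (2 * n + 1 - k) = 2 * n + 1 by omega]
    exact h2

lemma PW_empty0 (n w : ℕ) (hw : w ≠ 0) : PW n 0 w = ∅ := by
  unfold PW
  rw [Finset.filter_eq_empty_iff]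
  intro N hN h
  apply hw
  rw [← h, Nat.sub_zero]
  exact Nat.div_eq_of_lt (pal_lower hN).2

/-- **Squarefree palindromes with at most three prime factors, prescribed first digits and a residue
class.** For all large `n`, all `k ≤ n / 20000`, every `w`, every `m ≤ exp (c √n)` coprime to `10` and
every reduced residue class `a` modulo `m`: if `G` palindromes with `2 * n + 1` digits beginning with
the `k` digits `w` are coprime to `10` (`G = 4 * 10 ^ n` for `k = w = 0`; `G = 10 ^ (n + 1 - k)` for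
`k ≥ 1`, if `w` has `k` digits, the first of them `1, 3, 7` or `9`), then at least
`(1 / 40) * G / (n * φ(m))` palindromes with `2 * n + 1` digits beginning with `w` are congruent to `a`
modulo `m` and products of at most three distinct primes, each of them larger than the power `1 / 15`
of the palindrome. -/
theorem result :
    ∃ c : ℝ, 0 < c ∧ ∃ n0 : ℕ, ∀ n : ℕ, n0 ≤ n → ∀ k w m a : ℕ, 20000 * k ≤ n →
      (m : ℝ) ≤ Real.exp (c * √(n : ℝ)) → m.Coprime 10 → a.Coprime m →
      1 / 40 * (({N : ℕ | IsPal (2 * n + 1) N ∧ N / 10 ^ (2 * n + 1 - k) = w ∧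
          N.Coprime 10}.ncard : ℝ) / (n * m.totient)) ≤
        ({N : ℕ | IsPal (2 * n + 1) N ∧ N / 10 ^ (2 * n + 1 - k) = w ∧ N ≡ a [MOD m] ∧
          Squarefree N ∧ N.primeFactors.card ≤ 3 ∧
          ∀ p : ℕ, p.Prime → p ∣ N → N < p ^ 15}.ncard : ℝ) := by
  classical
  obtain ⟨c1, hc1, n1, h1⟩ := Pool.Agent.Helper78.TR.finalA
  obtain ⟨c2, hc2, n2, h2⟩ := finalW
  refine ⟨min c1 c2, lt_min hc1 hc2, n1 + n2 + 1, fun n hn k w m a hkn hm h10 ha => ?_⟩
  have hk1 : k ≤ n := by omega
  have hm1 : (m : ℝ) ≤ Real.exp (c1 * √(n : ℝ)) := hm.trans (Real.exp_le_exp.2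
    (mul_le_mul_of_nonneg_right (min_le_left _ _) (Real.sqrt_nonneg _)))
  have hm2 : (m : ℝ) ≤ Real.exp (c2 * √(n : ℝ)) := hm.trans (Real.exp_le_exp.2
    (mul_le_mul_of_nonneg_right (min_le_right _ _) (Real.sqrt_nonneg _)))
  rw [ncard_eq n k w (fun N => N.Coprime 10), ncard_eq n k w (fun N => N ≡ a [MOD m] ∧ Squarefree N ∧
    N.primeFactors.card ≤ 3 ∧ ∀ p : ℕ, p.Prime → p ∣ N → N < p ^ 15)]
  -- nothing to prove
  have hzero : ((PW n k w).filter (fun N => N.Coprime 10)).card = 0 →
      1 / 40 * ((((PW n k w).filter (fun N => N.Coprime 10)).card : ℝ) / (n * m.totient)) ≤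
      (((PW n k w).filter (fun N => N ≡ a [MOD m] ∧ Squarefree N ∧
        N.primeFactors.card ≤ 3 ∧ ∀ p : ℕ, p.Prime → p ∣ N → N < p ^ 15)).card : ℝ) := by
    intro h
    rw [h]
    simp
  rcases Nat.eq_zero_or_pos k with hk0 | hk
  · subst hk0
    rcases Nat.eq_zero_or_pos w with hw0 | hw0
    · subst hw0
      rw [card_cop0 n (by omega)]
      have h3 := h1 n (by omega) m a hm1 h10 ha
      have hsub : Pool.Agent.Helper78.TR.threeC n m a ⊆
          (PW n 0 0).filter (fun N => N ≡ a [MOD m] ∧ Squarefree N ∧ N.primeFactors.card ≤ 3 ∧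
          ∀ p : ℕ, p.Prime → p ∣ N → N < p ^ 15) := by
        intro N hN
        unfold Pool.Agent.Helper78.TR.threeC at hN
        rw [PW_zero]
        rw [Finset.mem_filter] at hN ⊢
        refine ⟨hN.1, hN.2.1, hN.2.2.1, ?_, hN.2.2.2.2⟩
        refine le_trans ?_ hN.2.2.2.1
        exact List.toFinset_card_le _
      have h4 : ((Pool.Agent.Helper78.TR.threeC n m a).card : ℝ) ≤
          (((PW n 0 0).filter (fun N => N ≡ a [MOD m] ∧ Squarefree N ∧ N.primeFactors.card ≤ 3 ∧
          ∀ p : ℕ, p.Prime → p ∣ N → N < p ^ 15)).card : ℝ) := by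
        exact_mod_cast Finset.card_le_card hsub
      refine le_trans (le_of_eq ?_) (h3.trans h4)
      push_cast
      ring
    · apply hzero
      rw [PW_empty0 n w (by omega)]
      simp
  · by_cases hw : 10 ^ (k - 1) ≤ w ∧ w < 10 ^ k
    · obtain ⟨hB1, hB2⟩ := card_cop n k w hk hk1 hw.1 hw.2
      by_cases hcop : (w / 10 ^ (k - 1)).Coprime 10
      · have h5 := h2 n (by omega) k w m a hk hkn hw.1 hw.2 hcop hm2 h10 ha
        have h6 : (PW n k w).filter (fun N => N.Coprime 10) = PW n k w := by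
          rw [Finset.filter_eq_self]
          intro N hN
          exact (hB1 N hN).2 hcop
        rw [h6, hB2]
        have hsub : (cls (PW n k w) m a).filter good ⊆
            (PW n k w).filter (fun N => N ≡ a [MOD m] ∧ Squarefree N ∧ N.primeFactors.card ≤ 3 ∧
            ∀ p : ℕ, p.Prime → p ∣ N → N < p ^ 15) := by
          intro N hN
          rw [Finset.mem_filter] at hN
          obtain ⟨g1, g2⟩ := hN
          unfold cls at g1
          rw [Finset.mem_filter] at g1
          rw [Finset.mem_filter]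
          exact ⟨g1.1, g1.2, g2.1, (List.toFinset_card_le _).trans g2.2.1, g2.2.2⟩
        have h7 : (((cls (PW n k w) m a).filter good).card : ℝ) ≤
            (((PW n k w).filter (fun N => N ≡ a [MOD m] ∧ Squarefree N ∧ N.primeFactors.card ≤ 3 ∧
            ∀ p : ℕ, p.Prime → p ∣ N → N < p ^ 15)).card : ℝ) := by
          exact_mod_cast Finset.card_le_card hsub
        refine le_trans (le_of_eq ?_) (h5.trans h7)
        push_cast
        ring
      · apply hzero
        rw [Finset.card_eq_zero, Finset.filter_eq_empty_iff]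
        intro N hN h
        exact hcop ((hB1 N hN).1 h)
    · apply hzero
      rw [PW_empty n k w hk1 hw hk]
      simp

end Pool.Agent.Results.MP_540de1_nt.SquarefreeThree
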